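import Pool.Agent.MP_caba0b_al.H43.Inv0

/-! Assembly of the bounded inverse from the elimination steps. -/

namespace Pool.Agent.MP_caba0b_al.H47

open Equiv Pool.Agent.MP_caba0b_al.H43

/-! ### global permutations -/

lemma glob_mul {S : Side} {π π' : Perm (Fin S.n)} {ζ ζ' : GaussianInt} {s : Bool}
    (h : S.Glob π ζ false) (h' : S.Glob π' ζ' s) : S.Glob (π' * π) (ζ * ζ') s := by
  refine ⟨by rw [Zsqrtd.norm_mul, h.1, h'.1, mul_one], fun i => ?_⟩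
  rw [h.2 i, h'.2 (π i)]
  simp [act, mul_assoc]

lemma unit_cases {ζ : GaussianInt} (h : ζ.norm = 1) :
    ζ = ⟨0, -1⟩ ∨ ζ = ⟨0, -1⟩ * ⟨0, -1⟩ ∨ ζ = ⟨0, -1⟩ * (⟨0, -1⟩ * ⟨0, -1⟩) ∨
      ζ = ⟨0, -1⟩ * (⟨0, -1⟩ * (⟨0, -1⟩ * ⟨0, -1⟩)) := by
  obtain ⟨x, y⟩ := ζ
  rw [Zsqrtd.norm_def] at h
  simp only at h
  have hx : x ≤ 1 := by nlinarith [sq_nonneg y]
  have hx' : -1 ≤ x := by nlinarith [sq_nonneg y]
  have hy : y ≤ 1 := by nlinarith [sq_nonneg x]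
  have hy' : -1 ≤ y := by nlinarith [sq_nonneg x]
  interval_cases x <;> interval_cases y <;> simp_all [Zsqrtd.ext_iff]

lemma glob_rot (S : Side) {ζ : GaussianInt} (h : ζ.norm = 1) : ∃ π, S.Glob π ζ false := by
  obtain ⟨π, hπ⟩ := S.rot
  have h0 : S.Glob π ⟨0, -1⟩ false := by
    refine ⟨by simp [Zsqrtd.norm_def], fun i => ?_⟩
    rw [hπ i]
    simp only [act, Bool.false_eq_true, if_false]
    ext <;> simp
  rcases unit_cases h with rfl | rfl | rfl | rfl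
  · exact ⟨_, h0⟩
  · exact ⟨_, glob_mul h0 h0⟩
  · exact ⟨_, glob_mul h0 (glob_mul h0 h0)⟩
  · exact ⟨_, glob_mul h0 (glob_mul h0 (glob_mul h0 h0))⟩

/-- the symmetries of the first side are symmetries of the second side -/
def Hyp (S S' : Side) : Prop := ∀ π ζ s, S.Glob π ζ s → ∃ π', S'.Glob π' ζ s

lemma hyp_of_refl {S S' : Side} {π₀ : Perm (Fin S'.n)} {ζ₀ : GaussianInt}
    (h₀ : S'.Glob π₀ ζ₀ true) : Hyp S S' := by
  intro π ζ s h
  cases s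
  · exact glob_rot S' h.1
  · have e : ζ₀ * star ζ₀ = 1 := by rw [← Zsqrtd.norm_eq_mul_conj, h₀.1]; simp
    obtain ⟨σ, hσ⟩ := glob_rot S' (ζ := ζ * star ζ₀) (by
      rw [Zsqrtd.norm_mul, h.1, Zsqrtd.norm_conj, h₀.1, mul_one])
    have := glob_mul hσ h₀
    rw [mul_assoc, mul_comm (star ζ₀), e, mul_one] at this
    exact ⟨_, this⟩

lemma hyp_or (S S' : Side) : Hyp S S' ∨ Hyp S' S := by
  by_cases h : ∃ π ζ, S.Glob π ζ true
  · obtain ⟨π, ζ, h⟩ := h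
    exact Or.inr (hyp_of_refl h)
  · refine Or.inl fun π ζ s hs => ?_
    cases s
    · exact glob_rot S' hs.1
    · exact absurd ⟨π, ζ, hs⟩ h

/-! ### good regions -/

lemma cost_nonneg (S : Side) (τ : ℝ) (y : Wt S.n →₀ ℝ) : 0 ≤ S.cost τ y :=
  wn_nonneg (fun _ => (Real.exp_pos _).le) y

lemma cost_add_le (S : Side) (τ : ℝ) (y y' : Wt S.n →₀ ℝ) :
    S.cost τ (y + y') ≤ S.cost τ y + S.cost τ y' :=
  wn_add_le (fun _ => (Real.exp_pos _).le) y y'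

section good

variable {S S' : Side} {m : ℕ} {ε c η : ℝ}

lemma L_mono (hP : Plane m ε c η) {R R' : ℝ} (h0 : 0 ≤ R) (h : R ≤ R') {ν : Wt S.n}
    (hν : S.L m c R ν) : S.L m c R' ν :=
  ⟨fun π => hP.mono h (hν.1 π), hν.2.trans (by nlinarith)⟩

lemma rep_mono (hP : Plane m ε c η) {R R' τ K K' : ℝ} {x : X} (h0 : 0 ≤ R) (h : R ≤ R')
    (hK : K ≤ K') (hx : Rep S S' m c R τ x K) : Rep S S' m c R' τ x K' := by
  obtain ⟨y, y', h1, h2, h3, h4, h5, h6⟩ := hx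
  exact ⟨y, y', h1, h2, fun ν hν => L_mono hP h0 h (h3 ν hν), fun ν hν => L_mono hP h0 h (h4 ν hν),
    h5, h6.trans hK⟩

lemma rep_add {R τ K K' : ℝ} {x x' : X} (hx : Rep S S' m c R τ x K)
    (hx' : Rep S S' m c R τ x' K') : Rep S S' m c R τ (x + x') (K + K') := by
  obtain ⟨y, y', h1, h2, h3, h4, h5, h6⟩ := hx
  obtain ⟨w, w', g1, g2, g3, g4, g5, g6⟩ := hx'
  refine ⟨y + w, y' + w', h1.add g1, h2.add g2, fun ν hν => ?_, fun ν hν => ?_, ?_, ?_⟩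
  · by_cases h : y ν = 0
    · exact g3 ν (by simpa [h] using hν)
    · exact h3 ν h
  · by_cases h : y' ν = 0
    · exact g4 ν (by simpa [h] using hν)
    · exact h4 ν h
  · rw [map_add, map_add, ← h5, ← g5]
    abel
  · linarith [cost_add_le S τ y w, cost_add_le S' τ y' w']

lemma rep_nrm {R τ K : ℝ} {x : X} (hτ : 0 ≤ τ) (hx : Rep S S' m c R τ x K) : nrm τ x ≤ 5 * K := by
  obtain ⟨y, y', -, -, -, -, h5, h6⟩ := hx
  rw [← h5]
  have := wn_sub_le (nrm_w_nonneg τ) (S.Phi y) (S'.Phi y')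
  have h1 := S.nrm_Phi_le hτ y
  have h2 := S'.nrm_Phi_le hτ y'
  unfold nrm at h1 h2 ⊢
  linarith

lemma im_sub {R τ K : ℝ} {x z : X} (hx : Im S S' x) (hz : Rep S S' m c R τ z K) :
    Im S S' (x - z) := by
  obtain ⟨f, f', h1, h2, h3⟩ := hx
  obtain ⟨y, y', g1, g2, -, -, g5, -⟩ := hz
  refine ⟨f - y, f' - y', h1.sub g1, h2.sub g2, ?_⟩
  rw [map_sub, map_sub, ← h3, ← g5]
  abel

/-- every element of the image supported in `Ω` has a representation of cost `exp E` -/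
def Good (S S' : Side) (m : ℕ) (c R : ℝ) (Ω : GaussianInt → Prop) (E : ℝ) : Prop :=
  ∀ τ : ℝ, 0 ≤ τ → τ ≤ 1 → ∀ x : X, Im S S' x → (∀ μ, x (Sum.inl μ) ≠ 0 → Ω μ) →
    Rep S S' m c R τ x (Real.exp E * nrm τ x)

lemma Good.mono (hP : Plane m ε c η) {R R' E E' : ℝ} {Ω Ω' : GaussianInt → Prop}
    (h : Good S S' m c R Ω E) (h0 : 0 ≤ R) (hR : R ≤ R') (hE : E ≤ E') (hΩ : ∀ μ, Ω' μ → Ω μ) :
    Good S S' m c R' Ω' E' := fun τ h1 h2 x hx hs =>
  rep_mono hP h0 hR (mul_le_mul_of_nonneg_right (Real.exp_le_exp.2 hE) (nrm_nonneg τ x))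
    (h τ h1 h2 x hx fun μ hμ => hΩ μ (hs μ hμ))

lemma Good.step (hP : Plane m ε c η) {R R' E C : ℝ} {Ω Ω' : GaussianInt → Prop}
    (h : Good S S' m c R' Ω E) (hE : 0 ≤ E) (hC : 0 ≤ C) (h0 : 0 ≤ R) (hR : R ≤ R')
    (hs : Step S S' m c R Ω' Ω C) : Good S S' m c R' Ω' (E + 6 * C) := by
  intro τ h1 h2 x hx hsup
  obtain ⟨z, hz, hz'⟩ := hs τ h1 h2 x hx hsup
  have h3 := h τ h1 h2 (x - z) (im_sub hx hz) hz'
  have h4 := rep_nrm h1 hz
  have h5 : nrm τ (x - z) ≤ nrm τ x + nrm τ z := wn_sub_le (nrm_w_nonneg τ) x z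
  have h6 := rep_add (rep_mono hP h0 hR le_rfl hz) h3
  rw [add_sub_cancel] at h6
  refine rep_mono hP (h0.trans hR) le_rfl ?_ h6
  have hn := nrm_nonneg τ x
  have e1 : 1 ≤ Real.exp E := Real.one_le_exp hE
  have e2 : 6 * C + 1 ≤ Real.exp (6 * C) := Real.add_one_le_exp _
  rw [Real.exp_add]
  have e3 : Real.exp E * nrm τ (x - z) ≤ Real.exp E * ((1 + 5 * C) * nrm τ x) :=
    mul_le_mul_of_nonneg_left (by linarith) (Real.exp_pos _).le
  have e4 : C * nrm τ x ≤ Real.exp E * (C * nrm τ x) :=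
    le_mul_of_one_le_left (mul_nonneg hC hn) e1
  have e5 : Real.exp E * ((6 * C + 1) * nrm τ x) ≤ Real.exp E * (Real.exp (6 * C) * nrm τ x) :=
    mul_le_mul_of_nonneg_left (mul_le_mul_of_nonneg_right e2 hn) (Real.exp_pos _).le
  nlinarith

lemma L_of_small (hP : Plane m ε c η) (hc : c < 1) {R : ℝ} (h0 : 0 ≤ c * R) (hR : 0 ≤ R)
    {ν : Wt S.n} (h : S.N * nsq ν ≤ (c * R) ^ 2) : S.L m c R ν := by
  refine ⟨fun π => hP.ball ?_, h.trans ?_⟩
  · have h1 := S.norm_push_le (ν ∘ π)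
    rw [nsq_perm, norm_gi] at h1
    exact (pow_le_pow_iff_left₀ (norm_nonneg _) h0 two_ne_zero).1 (h1.trans h)
  · have : c * R ≤ R := by nlinarith
    nlinarith

lemma one_le_w {τ : ℝ} (hτ : 0 ≤ τ) (y : GaussianInt ⊕ ZMod 4) :
    (1 : ℝ) ≤ Sum.elim (fun μ : GaussianInt => Real.exp (τ * (μ.norm : ℝ))) (fun _ => 1) y := by
  cases y with
  | inl μ => exact Real.one_le_exp (mul_nonneg hτ (by exact_mod_cast GaussianInt.norm_nonneg μ))
  | inr _ => exact le_rfl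

lemma span_phi (S : Side) {W : Submodule ℝ X} (h : ∀ ν, S.Phi (msym ν) ∈ W) {f : Wt S.n →₀ ℝ}
    (hf : Sym f) : S.Phi f ∈ W := by
  rw [hf.eq_sum, map_sum]
  exact W.sum_mem fun ν _ => by rw [map_smul]; exact W.smul_mem _ (h ν)

/-- the base of the induction -/
lemma good_base (hla : LAStmt) (hP : Plane m ε c η) (hc0 : 0 < c) (hc : c < 1) (S₀ : ℝ) :
    ∃ R₁ E : ℝ, 0 ≤ R₁ ∧ 0 ≤ E ∧ Good S S' m c R₁ (fun μ => inP m c S₀ μ) E := by
  classical
  let v : Wt S.n ⊕ Wt S'.n → X := Sum.elim (fun ν => S.Phi (msym ν)) fun ν => S'.Phi (msym ν)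
  let Y₀ : Set (GaussianInt ⊕ ZMod 4) :=
    Sum.inl '' {u : GaussianInt | (u.norm : ℝ) ≤ S₀ ^ 2} ∪ Set.range Sum.inr
  have hY : Y₀.Finite := ((finite_norm_le _).image _).union (Set.finite_range _)
  obtain ⟨I₀, C, hC, -, hI⟩ := hla _ _ v Set.univ Y₀ hY
  let sz : Wt S.n ⊕ Wt S'.n → ℝ := Sum.elim (fun ν => S.N * nsq ν) fun ν => S'.N * nsq ν
  have hsz : ∀ i, 0 ≤ sz i := by
    rintro (ν | ν)
    · exact mul_nonneg (Nat.cast_nonneg _) (nsq_nonneg ν)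
    · exact mul_nonneg (Nat.cast_nonneg _) (nsq_nonneg ν)
  set B : ℝ := ∑ i ∈ I₀, sz i with hB
  have hB0 : 0 ≤ B := Finset.sum_nonneg fun i _ => hsz i
  have hBi : ∀ i ∈ I₀, sz i ≤ B := fun i hi => Finset.single_le_sum (fun i _ => hsz i) hi
  set M : ℝ := (S.n.factorial + S'.n.factorial) * Real.exp B with hM
  have hM0 : 0 ≤ M := by positivity
  have hR : c * ((B + 1) / c) = B + 1 := by field_simp
  have hR0 : 0 ≤ (B + 1) / c := by positivity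
  have hB2 : B ≤ (c * ((B + 1) / c)) ^ 2 := by rw [hR]; nlinarith
  refine ⟨(B + 1) / c, M * C, hR0, mul_nonneg hM0 hC, fun τ h1 h2 x hx hs => ?_⟩
  have hx1 : x ∈ Submodule.span ℝ (v '' Set.univ) := by
    obtain ⟨f, f', hf, hf', rfl⟩ := hx
    exact Submodule.sub_mem _
      (span_phi S (fun ν => Submodule.subset_span
        (Set.mem_image_of_mem v (Set.mem_univ (Sum.inl ν)))) hf)
      (span_phi S' (fun ν => Submodule.subset_span
        (Set.mem_image_of_mem v (Set.mem_univ (Sum.inr ν)))) hf')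
  have hx2 : ∀ y, x y ≠ 0 → y ∈ Y₀ := by
    rintro (μ | k) hy
    · refine Or.inl ⟨μ, ?_, rfl⟩
      have := (hs μ hy).1
      rw [Set.mem_ofPred_eq, norm_gi]
      exact pow_le_pow_left₀ (norm_nonneg _) this 2
    · exact Or.inr ⟨k, rfl⟩
  obtain ⟨a, ha1, ha2, ha3⟩ := hI x hx1 hx2
  let p : Wt S.n ⊕ Wt S'.n → Wt S.n →₀ ℝ := Sum.elim msym fun _ => 0
  let p' : Wt S.n ⊕ Wt S'.n → Wt S'.n →₀ ℝ := Sum.elim (fun _ => 0) fun ν => -msym ν
  have hexp : ∀ i ∈ a.support, Real.exp (τ * sz i) ≤ Real.exp B := fun i hi =>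
    Real.exp_le_exp.2 ((mul_le_of_le_one_left (hsz i) h2).trans (hBi i (ha1 hi)))
  refine ⟨∑ i ∈ a.support, a i • p i, ∑ i ∈ a.support, a i • p' i, ?_, ?_, ?_, ?_, ?_, ?_⟩
  · refine sym_sum _ fun i _ => Sym.smul ?_ _
    cases i
    · exact sym_msym _
    · exact sym_zero
  · refine sym_sum _ fun i _ => Sym.smul ?_ _
    cases i
    · exact sym_zero
    · exact (sym_msym _).neg
  · intro ν hν
    rw [Finsupp.finsetSum_apply] at hν
    obtain ⟨i, hi, hν⟩ := Finset.exists_ne_zero_of_sum_ne_zero hν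
    rw [Finsupp.smul_apply, smul_eq_mul] at hν
    cases i with
    | inl l =>
      obtain ⟨π, rfl⟩ := msym_ne (right_ne_zero_of_mul hν)
      exact (L_of_small hP hc (by rw [hR]; linarith) hR0 ((hBi _ (ha1 hi)).trans hB2)).perm π
    | inr l => exact absurd rfl (right_ne_zero_of_mul hν)
  · intro ν hν
    rw [Finsupp.finsetSum_apply] at hν
    obtain ⟨i, hi, hν⟩ := Finset.exists_ne_zero_of_sum_ne_zero hν
    rw [Finsupp.smul_apply, smul_eq_mul] at hν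
    cases i with
    | inl l => exact absurd rfl (right_ne_zero_of_mul hν)
    | inr l =>
      have : msym l ν ≠ 0 := by simpa [p'] using right_ne_zero_of_mul hν
      obtain ⟨π, rfl⟩ := msym_ne this
      exact (L_of_small hP hc (by rw [hR]; linarith) hR0 ((hBi _ (ha1 hi)).trans hB2)).perm π
  · rw [← ha2, Finsupp.linearCombination_apply, Finsupp.sum, map_sum, map_sum,
      ← Finset.sum_sub_distrib]
    refine Finset.sum_congr rfl fun i _ => ?_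
    cases i <;> simp [p, p', v]
  · have e1 := wn_sum_le (w := fun ν : Wt S.n => Real.exp (τ * (S.N * nsq ν)))
      (fun _ => (Real.exp_pos _).le) a.support fun i => a i • p i
    have e2 := wn_sum_le (w := fun ν : Wt S'.n => Real.exp (τ * (S'.N * nsq ν)))
      (fun _ => (Real.exp_pos _).le) a.support fun i => a i • p' i
    have e3 : ∑ i ∈ a.support, (S.cost τ (a i • p i) + S'.cost τ (a i • p' i)) ≤
        ∑ i ∈ a.support, M * (|a i| * 1) := by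
      refine Finset.sum_le_sum fun i hi => ?_
      have hi' := hexp i hi
      have hp := Real.exp_pos B
      rw [Side.cost, Side.cost, wn_smul, wn_smul, ← mul_add, mul_one, mul_comm M]
      refine mul_le_mul_of_nonneg_left ?_ (abs_nonneg _)
      cases i with
      | inl l =>
        have := S.cost_msym τ l
        have h3 : (S.n.factorial : ℝ) * Real.exp (τ * (S.N * nsq l)) ≤
          S.n.factorial * Real.exp B := mul_le_mul_of_nonneg_left hi' (Nat.cast_nonneg _)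
        have h4 : (0 : ℝ) ≤ S'.n.factorial * Real.exp B := by positivity
        simp only [p, p', Sum.elim_inl, wn_zero]
        rw [Side.cost] at this
        linarith
      | inr l =>
        have := S'.cost_msym τ l
        have h3 : (S'.n.factorial : ℝ) * Real.exp (τ * (S'.N * nsq l)) ≤
          S'.n.factorial * Real.exp B := mul_le_mul_of_nonneg_left hi' (Nat.cast_nonneg _)
        have h4 : (0 : ℝ) ≤ S.n.factorial * Real.exp B := by positivity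
        simp only [p, p', Sum.elim_inr, wn_zero, wn_neg]
        rw [Side.cost] at this
        linarith
    have e4 : wn (fun _ => 1) x ≤ nrm τ x := wn_mono fun y _ => one_le_w h1 y
    rw [Finset.sum_add_distrib, ← Finset.mul_sum] at e3
    have e5 : M * wn (fun _ => 1) a ≤ M * (C * nrm τ x) :=
      mul_le_mul_of_nonneg_left (ha3.trans (mul_le_mul_of_nonneg_left e4 hC)) hM0
    have e6 : M * C * nrm τ x ≤ Real.exp (M * C) * nrm τ x :=
      mul_le_mul_of_nonneg_right (by linarith [Real.add_one_le_exp (M * C)]) (nrm_nonneg τ x)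
    have e7 : ∑ i ∈ a.support, |a i| * 1 = wn (fun _ => 1) a := rfl
    rw [e7] at e3
    simp only [Side.cost] at e3 ⊢
    linarith

end good

/-! ### the induction on scales -/

lemma ex_one {m : ℕ} (hm : 1 ≤ m) : Ex m 1 := by
  refine ⟨⟨one_ne_zero, fun t ⟨v, hv⟩ => ⟨v.re, ?_⟩⟩, by simpa using hm⟩
  simpa using (congrArg Complex.re hv).symm

lemma finite_inP (m : ℕ) (c R : ℝ) : {μ : GaussianInt | inP m c R μ}.Finite :=
  (finite_norm_le (R ^ 2)).subset fun μ hμ => by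
    rw [Set.mem_ofPred_eq, norm_gi]
    exact pow_le_pow_left₀ (norm_nonneg _) hμ.1 2

lemma finite_L (S : Side) (m : ℕ) (c R : ℝ) : {ν : Wt S.n | S.L m c R ν}.Finite := by
  refine (Set.Finite.pi' fun _ : Fin S.n =>
    Set.finite_Icc (-⌈4 * R ^ 2⌉) ⌈4 * R ^ 2⌉).subset fun ν hν i => ?_
  have h1 : (ν i : ℝ) ^ 2 ≤ nsq ν :=
    Finset.single_le_sum (f := fun i => (ν i : ℝ) ^ 2) (fun _ _ => sq_nonneg _) (Finset.mem_univ i)
  have h2 : nsq ν ≤ S.N * nsq ν := le_mul_of_one_le_left (nsq_nonneg ν) Side.one_le_N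
  have h3 : ν i ^ 2 ≤ ⌈4 * R ^ 2⌉ := by
    exact_mod_cast ((h1.trans h2).trans hν.2).trans (Int.le_ceil _)
  constructor <;> nlinarith [sq_nonneg (ν i - 1), sq_nonneg (ν i + 1), sq_nonneg (ν i)]

/-- the statement with the regions made explicit -/
lemma good_all (hla : LAStmt) (hA : StepAStmt) (hB : StepBStmt) {S S' : Side} (hH : Hyp S S')
    {m : ℕ} {ε c η κ : ℝ} (hC : Cst m ε c η κ) (hP : Plane m ε c η) (hG : S.G12 m ε c κ)
    (hG' : S'.G12 m ε c κ) (T : ℝ) : ∃ C g r₀ : ℝ, 1 < g ∧ 1 ≤ r₀ ∧ T ≤ r₀ ∧ ∀ k : ℕ,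
      Good S S' m c ((r₀ * g ^ k) ^ 2) (fun μ => inP m c ((r₀ * g ^ k) ^ 2) μ)
        (C * ((k : ℝ) + 1) ^ 2) := by
  obtain ⟨CA, D, RA, hCA, hD, hA⟩ := hA S S' m ε c η κ hC hP hG hH
  have he := hC.e0
  have he1 : ε ≤ 1 := by
    have h1 : (1 : ℝ) ≤ m := by exact_mod_cast hC.hm
    nlinarith [hC.sep, mul_le_mul_of_nonneg_left (one_le_pow₀ h1 (n := 2)) he.le]
  set D₀ : ℝ := 4 * D / ε + 1 with hD₀
  have hD1 : 1 ≤ D₀ := by
    have : 0 ≤ 4 * D / ε := by positivity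
    linarith
  have hD2 : D ≤ ε / 4 * D₀ := by
    have : ε / 4 * (4 * D / ε) = D := by field_simp
    rw [hD₀, mul_add, this]
    linarith
  obtain ⟨CB, RB, hCB, hB⟩ := hB S S' m ε c η κ hC hP hG hG' D₀ (by linarith)
  set s₀ : ℝ := max (max 1 T) (max RA RB) with hs₀
  have hs1 : 1 ≤ s₀ := (le_max_left _ _).trans (le_max_left _ _)
  have hsT : T ≤ s₀ := (le_max_right _ _).trans (le_max_left _ _)
  have hsA : RA ≤ s₀ := (le_max_left _ _).trans (le_max_right _ _)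
  have hsB : RB ≤ s₀ := (le_max_right _ _).trans (le_max_right _ _)
  have hc0 := hC.c0
  have hc1 := hC.c1
  set g : ℝ := (√c)⁻¹ with hg
  have hg2 : g ^ 2 = c⁻¹ := by rw [hg, inv_pow, Real.sq_sqrt hc0.le]
  have hg1 : 1 < g := by
    rw [hg, one_lt_inv₀ (Real.sqrt_pos.2 hc0), Real.sqrt_lt' one_pos]
    simpa using hc1
  set q : ℝ := (1 - ε / 4)⁻¹ with hq
  have hq0 : 0 < 1 - ε / 4 := by linarith
  have hq1 : 1 < q := by rw [hq, one_lt_inv₀ hq0]; linarith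
  have hqc : c⁻¹ ≤ q := inv_anti₀ hq0 hC.c3
  have hqq : (1 - ε / 4) * q = 1 := mul_inv_cancel₀ hq0.ne'
  let Sc : ℕ → ℝ := fun j => (s₀ * g ^ j) ^ 2
  have hSc : ∀ j, Sc j = s₀ ^ 2 * c⁻¹ ^ j := fun j => by
    simp only [Sc]
    rw [mul_pow, ← pow_mul, mul_comm j, pow_mul, hg2]
  have hSc1 : ∀ j, c * Sc (j + 1) = Sc j := fun j => by
    rw [hSc, hSc, pow_succ c⁻¹]
    linear_combination s₀ ^ 2 * c⁻¹ ^ j * mul_inv_cancel₀ hc0.ne'
  have hSc2 : ∀ j, s₀ ≤ Sc j := fun j => by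
    rw [hSc]
    have : 1 ≤ c⁻¹ ^ j := one_le_pow₀ (by rw [← hg2]; exact one_le_pow₀ hg1.le)
    nlinarith
  have hSc3 : ∀ j, Sc j ≤ Sc (j + 1) := fun j => by
    rw [← hSc1 j]
    nlinarith [hSc2 (j + 1)]
  obtain ⟨j₀, hj₀⟩ := pow_unbounded_of_one_lt (s₀ ^ 2) hq1
  have hδ : ∀ j, Sc j ≤ D₀ * q ^ (j + j₀) := fun j => by
    rw [hSc, pow_add]
    have h1 : c⁻¹ ^ j ≤ q ^ j := pow_le_pow_left₀ (by positivity) hqc j
    have h2 : s₀ ^ 2 * c⁻¹ ^ j ≤ q ^ j₀ * q ^ j :=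
      mul_le_mul hj₀.le h1 (by positivity) (by positivity)
    have h3 : 0 ≤ q ^ j * q ^ j₀ := by positivity
    nlinarith
  have strip : ∀ (R R' E : ℝ), s₀ ≤ R → R ≤ R' → 0 ≤ E →
      Good S S' m c R' (fun μ => inP m c (c * R) μ) E → ∀ i : ℕ,
      Good S S' m c R' (Om m c R (D₀ * q ^ i)) (E + 6 * CB + 6 * CA * i) := by
    intro R R' E h1 h2 h3 h4 i
    induction i with
    | zero => simpa using h4.step hP h3 hCB (by linarith) h2 (hB R (hsB.trans h1))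
    | succ i ih =>
      have h5 : 1 ≤ q ^ (i + 1) := one_le_pow₀ hq1.le
      have h6 : (1 - ε / 2) * (D₀ * q ^ (i + 1)) + D ≤ D₀ * q ^ i := by
        have e : D₀ * q ^ i = (1 - ε / 4) * (D₀ * q ^ (i + 1)) := by
          rw [pow_succ]
          linear_combination -(D₀ * q ^ i) * hqq
        have : ε / 4 * D₀ ≤ ε / 4 * (D₀ * q ^ (i + 1)) :=
          mul_le_mul_of_nonneg_left (le_mul_of_one_le_right (by linarith) h5) (by linarith)
        rw [e]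
        linarith
      have := ih.step hP (by positivity) hCA (by linarith) h2 (hA R _ _ (hsA.trans h1) h6)
      convert this using 1
      push_cast
      ring
  obtain ⟨R₁, E₀, hR₁, hE₀, hbase⟩ := good_base (S := S) (S' := S') hla hP hc0 hc1 (Sc 0)
  set L : ℝ := E₀ + 6 * CB + 6 * CA * (1 + j₀) with hL
  have hL1 : 0 ≤ 6 * CA * (1 + j₀) := by positivity
  have hL0 : 0 ≤ L := by positivity
  have main : ∀ j : ℕ, Good S S' m c (max R₁ (Sc j)) (fun μ => inP m c (Sc j) μ)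
      (L * ((j : ℝ) + 1) ^ 2) := by
    intro j
    induction j with
    | zero => exact hbase.mono hP hR₁ (le_max_left _ _) (by simp; linarith) fun _ h => h
    | succ j ih =>
      have h1 : Good S S' m c (max R₁ (Sc (j + 1))) (fun μ => inP m c (c * Sc (j + 1)) μ)
          (L * ((j : ℝ) + 1) ^ 2) :=
        ih.mono hP (hR₁.trans (le_max_left _ _)) (max_le_max le_rfl (hSc3 j)) le_rfl
          fun μ h => by rwa [hSc1] at h
      have h2 := strip _ _ _ (hSc2 (j + 1)) (le_max_right _ _) (by positivity) h1 (j + 1 + j₀)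
      refine h2.mono hP (hR₁.trans (le_max_left _ _)) le_rfl ?_ fun μ h => Or.inr ⟨h, 1,
        ex_one hC.hm, ?_⟩
      · push_cast
        have hj : (0 : ℝ) ≤ j := Nat.cast_nonneg j
        have hj' : (0 : ℝ) ≤ j₀ := Nat.cast_nonneg j₀
        have h3 : 6 * CA * j ≤ L * j := mul_le_mul_of_nonneg_right (by nlinarith) hj
        nlinarith
      · refine (abs_cr_le _ _).trans ?_
        rw [norm_un one_ne_zero, mul_one]
        exact h.1.trans (hδ (j + 1))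
  obtain ⟨k₀, hk₀⟩ := pow_unbounded_of_one_lt R₁ hg1
  have hgk : 1 ≤ g ^ k₀ := one_le_pow₀ hg1.le
  refine ⟨L * ((k₀ : ℝ) + 1) ^ 2, g, s₀ * g ^ k₀, hg1, by nlinarith, by nlinarith, fun k => ?_⟩
  have e : (s₀ * g ^ k₀ * g ^ k) ^ 2 = Sc (k₀ + k) := by simp only [Sc]; rw [pow_add, mul_assoc]
  have h1 : R₁ ≤ Sc (k₀ + k) := by
    have h2 : g ^ k₀ ≤ g ^ (k₀ + k) := pow_le_pow_right₀ hg1.le (Nat.le_add_right _ _)
    have h3 : g ^ (k₀ + k) ≤ s₀ * g ^ (k₀ + k) := le_mul_of_one_le_left (by positivity) hs1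
    simp only [Sc]
    nlinarith
  rw [e]
  refine (main (k₀ + k)).mono hP (hR₁.trans (le_max_left _ _)) (max_le h1 le_rfl) ?_ fun _ h => h
  rw [mul_assoc, ← mul_pow]
  refine mul_le_mul_of_nonneg_left (pow_le_pow_left₀ (by positivity) ?_ 2) hL0
  push_cast
  nlinarith [(Nat.cast_nonneg k : (0 : ℝ) ≤ k), (Nat.cast_nonneg k₀ : (0 : ℝ) ≤ k₀)]

/-- the conclusion for one ordered pair of sides -/
def Inv (S S' : Side) : Prop :=
  ∃ κ C g r₀ : ℝ, 0 < κ ∧ 1 < g ∧ 1 ≤ r₀ ∧ ∀ k : ℕ,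
    ∃ (P : Finset GaussianInt) (Λ : Finset (Wt S.n)) (Λ' : Finset (Wt S'.n)),
      Adapt S κ ((r₀ * g ^ k) ^ 2) P Λ ∧ Adapt S' κ ((r₀ * g ^ k) ^ 2) P Λ' ∧
      ∀ τ : ℝ, 0 ≤ τ → τ ≤ 1 → ∀ (f : Wt S.n →₀ ℝ) (f' : Wt S'.n →₀ ℝ), Sym f → Sym f' →
        (∀ μ, (S.Phi f - S'.Phi f') (Sum.inl μ) ≠ 0 → μ ∈ P) →
        ∃ (y : Wt S.n →₀ ℝ) (y' : Wt S'.n →₀ ℝ), Sym y ∧ Sym y' ∧ y.support ⊆ Λ ∧
          y'.support ⊆ Λ' ∧ S.Phi y - S'.Phi y' = S.Phi f - S'.Phi f' ∧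
          S.cost τ y + S'.cost τ y' ≤
            Real.exp (C * ((k : ℝ) + 1) ^ 2) * nrm τ (S.Phi f - S'.Phi f')

lemma Inv.symm {S S' : Side} (h : Inv S S') : Inv S' S := by
  obtain ⟨κ, C, g, r₀, h1, h2, h3, h⟩ := h
  refine ⟨κ, C, g, r₀, h1, h2, h3, fun k => ?_⟩
  obtain ⟨P, Λ, Λ', h4, h5, h6⟩ := h k
  refine ⟨P, Λ', Λ, h5, h4, fun τ t0 t1 f' f hf' hf hs => ?_⟩
  have e : S.Phi f - S'.Phi f' = -(S'.Phi f' - S.Phi f) := (neg_sub _ _).symm
  obtain ⟨y, y', g1, g2, g3, g4, g5, g6⟩ := h6 τ t0 t1 f f' hf hf' fun μ hμ =>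
    hs μ (by rw [e, Finsupp.neg_apply] at hμ; exact neg_ne_zero.1 hμ)
  refine ⟨y', y, g2, g1, g4, g3, ?_, ?_⟩
  · rw [← neg_sub, g5, neg_sub]
  · rw [e, nrm, wn_neg] at g6
    rw [add_comm]
    exact g6

lemma inv_of_hyp (hcls : ClsStmt) (hgeom : GeomStmt) (had : AdaptStmt) (hla : LAStmt)
    (hA : StepAStmt) (hB : StepBStmt) {S S' : Side} (hH : Hyp S S') : Inv S S' := by
  obtain ⟨m, ε, c, η, κ, hS, hS', hC⟩ := hcls S S'
  obtain ⟨hP, hG⟩ := hgeom m ε c η κ hC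
  obtain ⟨κ₁, R₁, hκ₁, h₁⟩ := had m ε c η κ hC hP S hS (hG S hS)
  obtain ⟨κ₂, R₂, hκ₂, h₂⟩ := had m ε c η κ hC hP S' hS' (hG S' hS')
  obtain ⟨C, g, r₀, hg, hr, hT, h⟩ := good_all hla hA hB hH hC hP (hG S hS) (hG S' hS') (max R₁ R₂)
  refine ⟨min κ₁ κ₂, C, g, r₀, lt_min hκ₁ hκ₂, hg, hr, fun k => ?_⟩
  have hk : 1 ≤ g ^ k := one_le_pow₀ hg.le
  have hR : r₀ ≤ (r₀ * g ^ k) ^ 2 := by
    have : r₀ ≤ r₀ * g ^ k := le_mul_of_one_le_right (by linarith) hk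
    nlinarith
  refine ⟨(finite_inP m c ((r₀ * g ^ k) ^ 2)).toFinset, (finite_L S m c ((r₀ * g ^ k) ^ 2)).toFinset,
    (finite_L S' m c ((r₀ * g ^ k) ^ 2)).toFinset,
    h₁ _ _ _ _ (lt_min hκ₁ hκ₂) (min_le_left _ _) (((le_max_left _ _).trans hT).trans hR)
      (fun _ => Set.Finite.mem_toFinset _) fun _ => Set.Finite.mem_toFinset _,
    h₂ _ _ _ _ (lt_min hκ₁ hκ₂) (min_le_right _ _) (((le_max_right _ _).trans hT).trans hR)
      (fun _ => Set.Finite.mem_toFinset _) fun _ => Set.Finite.mem_toFinset _,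
    fun τ t0 t1 f f' hf hf' hs => ?_⟩
  obtain ⟨y, y', g1, g2, g3, g4, g5, g6⟩ := h k τ t0 t1 _ ⟨f, f', hf, hf', rfl⟩ fun μ hμ =>
    (finite_inP m c ((r₀ * g ^ k) ^ 2)).mem_toFinset.1 (hs μ hμ)
  exact ⟨y, y', g1, g2,
    fun ν hν => (Set.Finite.mem_toFinset _).2 (g3 ν (Finsupp.mem_support_iff.1 hν)),
    fun ν hν => (Set.Finite.mem_toFinset _).2 (g4 ν (Finsupp.mem_support_iff.1 hν)), g5, g6⟩

theorem invAsm : ClsStmt → GeomStmt → AdaptStmt → LAStmt → StepAStmt → StepBStmt → InvStmt := by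
  intro hcls hgeom had hla hA hB S S'
  rcases hyp_or S S' with h | h
  · exact inv_of_hyp hcls hgeom had hla hA hB h
  · exact (inv_of_hyp hcls hgeom had hla hA hB h).symm

end Pool.Agent.MP_caba0b_al.H47
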